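import Pool.Agent.W70.HR.Stm

/-!
Project HR (helper70), part CS: from first and second moments to a quarter of the classes.
-/

set_option autoImplicit false

open Finset

namespace Pool.Agent.W168.HR

open Pool.Agent.W70.HR

theorem numeric {s t μ : ℝ} (_hs : 0 ≤ s) (hst : s ≤ t / 100) (ht0 : 0 < t) (ht1 : t ≤ 1)
    (hμ0 : 0 < μ) (hμt : 16 ≤ μ * t) :
    (1 / 4 - t / 100) * ((1 + s) + (4 + s) * μ) ≤ (1 - s) ^ 2 * μ := by
  have c1 : 1 + s ≤ (101 / 100) * (μ * t / 16) := by linarith
  have c2 : s * μ ≤ t / 100 * μ := mul_le_mul_of_nonneg_right hst hμ0.le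
  have b2 : (1 + s) + (4 + s) * μ ≤ μ * (4 + t * (73125 / 1000000)) := by
    have : (4 + s) * μ = 4 * μ + s * μ := by ring
    rw [this]
    have e : μ * (4 + t * (73125 / 1000000)) =
      4 * μ + (101 / 100) * (μ * t / 16) + t / 100 * μ := by ring
    rw [e]
    linarith
  have b3 : 0 ≤ 1 / 4 - t / 100 := by linarith
  have b4 : (1 / 4 - t / 100) * ((1 + s) + (4 + s) * μ) ≤
      (1 / 4 - t / 100) * (μ * (4 + t * (73125 / 1000000))) := mul_le_mul_of_nonneg_left b2 b3
  have b5 : (1 / 4 - t / 100) * (4 + t * (73125 / 1000000)) ≤ 1 - t / 50 := by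
    have e : (1 / 4 - t / 100) * (4 + t * (73125 / 1000000)) =
      1 - t / 50 - (t * (1 / 50 - 73125 / 4000000) + t ^ 2 * (73125 / 100000000)) := by ring
    rw [e]
    have : 0 ≤ t * (1 / 50 - 73125 / 4000000) + t ^ 2 * (73125 / 100000000) := by positivity
    linarith
  have b6 : (1 / 4 - t / 100) * (μ * (4 + t * (73125 / 1000000))) ≤ μ * (1 - t / 50) := by
    have := mul_le_mul_of_nonneg_left b5 hμ0.le
    calc _ = μ * ((1 / 4 - t / 100) * (4 + t * (73125 / 1000000))) := by ring
      _ ≤ _ := this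
  have b7 : μ * (1 - t / 50) ≤ (1 - s) ^ 2 * μ := by
    have h : 1 - t / 50 ≤ (1 - s) ^ 2 := by
      have : (1 - s) ^ 2 = 1 - 2 * s + s ^ 2 := by ring
      rw [this]
      have := sq_nonneg s
      linarith
    calc μ * (1 - t / 50) ≤ μ * (1 - s) ^ 2 := mul_le_mul_of_nonneg_left h hμ0.le
      _ = _ := by ring
  exact b4.trans (b6.trans b7)

set_option maxHeartbeats 2000000 in
open Classical in
theorem cs : S_CS := by
  intro T K Ω w P A μ s hT hK hw hA hμ hs hs100 htot h1 h2
  have hT0 : (0 : ℝ) < T := by exact_mod_cast hT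
  have hT1 : (1 : ℝ) ≤ T := by exact_mod_cast hT
  have hK0 : (0 : ℝ) < K := by exact_mod_cast hK
  have hμ0 : 0 < μ := by linarith
  -- number of hits of a class
  set N : Fin T → ℕ → ℝ := fun g n => (((univ : Finset (Fin K)).filter (fun i => P g i n)).card : ℝ)
    with hN
  have hNsum : ∀ g n, N g n = ∑ i : Fin K, (if P g i n then (1 : ℝ) else 0) := by
    intro g n
    simp [hN, Finset.sum_boole]
  set M : Fin T → ℝ := fun g => ∑ n ∈ Ω.filter (fun n => ∃ i, P g i n), w n with hM
  -- first moment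
  have hfirst : ∀ g, (1 - s) * μ * A ≤ ∑ n ∈ Ω, w n * N g n := by
    intro g
    have e : ∑ n ∈ Ω, w n * N g n = ∑ i : Fin K, ∑ n ∈ Ω.filter (fun n => P g i n), w n := by
      simp_rw [hNsum, Finset.mul_sum]
      rw [Finset.sum_comm]
      refine Finset.sum_congr rfl fun i _ => ?_
      rw [Finset.sum_filter]
      refine Finset.sum_congr rfl fun n _ => ?_
      split_ifs <;> simp
    rw [e]
    calc (1 - s) * μ * A = ∑ i : Fin K, (1 - s) * (μ / K) * A := by
          simp only [Finset.sum_const, Finset.card_univ, Fintype.card_fin, nsmul_eq_mul]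
          field_simp
      _ ≤ _ := Finset.sum_le_sum fun i _ => (h1 g i).1
  -- second moment
  have hsecond : ∀ g, ∑ n ∈ Ω, w n * (N g n) ^ 2 ≤ ((1 + s) * μ + (4 + s) * μ ^ 2) * A := by
    intro g
    have e : ∑ n ∈ Ω, w n * (N g n) ^ 2 =
        ∑ i : Fin K, ∑ j : Fin K, ∑ n ∈ Ω.filter (fun n => P g i n ∧ P g j n), w n := by
      have e1 : ∀ n, w n * (N g n) ^ 2 =
          ∑ i : Fin K, ∑ j : Fin K, (if P g i n ∧ P g j n then w n else 0) := by
        intro n
        rw [hNsum, sq, Finset.sum_mul_sum, Finset.mul_sum]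
        refine Finset.sum_congr rfl fun i _ => ?_
        rw [Finset.mul_sum]
        refine Finset.sum_congr rfl fun j _ => ?_
        by_cases hi : P g i n <;> by_cases hj : P g j n <;> simp [hi, hj]
      simp_rw [e1]
      rw [Finset.sum_comm]
      refine Finset.sum_congr rfl fun i _ => ?_
      rw [Finset.sum_comm]
      refine Finset.sum_congr rfl fun j _ => ?_
      rw [Finset.sum_filter]
    rw [e]
    have hb : ∀ i j : Fin K, ∑ n ∈ Ω.filter (fun n => P g i n ∧ P g j n), w n ≤
        (if i = j then (1 + s) * (μ / K) * A else 0) + (4 + s) * (μ / K) ^ 2 * A := by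
      intro i j
      have hpos : 0 ≤ (4 + s) * (μ / K) ^ 2 * A := by positivity
      by_cases hij : i = j
      · subst hij
        simp only [and_self, if_true]
        have := (h1 g i).2
        linarith
      · simp only [hij, if_false]
        have := h2 g i j hij
        linarith
    calc _ ≤ ∑ i : Fin K, ∑ j : Fin K, ((if i = j then (1 + s) * (μ / K) * A else 0) +
            (4 + s) * (μ / K) ^ 2 * A) :=
          Finset.sum_le_sum fun i _ => Finset.sum_le_sum fun j _ => hb i j
      _ = ((1 + s) * μ + (4 + s) * μ ^ 2) * A := by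
          simp only [Finset.sum_add_distrib, Finset.sum_ite_eq, Finset.mem_univ, if_true,
            Finset.sum_const, Finset.card_univ, Fintype.card_fin, nsmul_eq_mul]
          field_simp
  -- Cauchy-Schwarz
  have hMnn : ∀ g, 0 ≤ M g := fun g =>
    Finset.sum_nonneg fun n hn => hw n (Finset.mem_filter.1 hn).1
  have hCS : ∀ g, (∑ n ∈ Ω, w n * N g n) ^ 2 ≤ M g * ∑ n ∈ Ω, w n * (N g n) ^ 2 := by
    intro g
    have e1 : ∑ n ∈ Ω, w n * N g n = ∑ n ∈ Ω.filter (fun n => ∃ i, P g i n), w n * N g n := by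
      rw [Finset.sum_filter]
      refine Finset.sum_congr rfl fun n _ => ?_
      split_ifs with h
      · rfl
      · have : N g n = 0 := by
          simp only [hN, Nat.cast_eq_zero, Finset.card_eq_zero]
          refine Finset.filter_eq_empty_iff.2 ?_
          intro i _ hi
          exact h ⟨i, hi⟩
        rw [this, mul_zero]
    have e2 : ∑ n ∈ Ω.filter (fun n => ∃ i, P g i n), w n * (N g n) ^ 2 ≤
        ∑ n ∈ Ω, w n * (N g n) ^ 2 := by
      refine Finset.sum_le_sum_of_subset_of_nonneg (Finset.filter_subset _ _) ?_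
      intro n hn _
      exact mul_nonneg (hw n hn) (sq_nonneg _)
    rw [e1]
    refine le_trans ?_ (mul_le_mul_of_nonneg_left e2 (hMnn g))
    have := Finset.sum_mul_sq_le_sq_mul_sq (Ω.filter (fun n => ∃ i, P g i n))
      (fun n => Real.sqrt (w n)) (fun n => Real.sqrt (w n) * N g n)
    have hs1 : ∀ n ∈ Ω.filter (fun n => ∃ i, P g i n), Real.sqrt (w n) * Real.sqrt (w n) = w n :=
      fun n hn => Real.mul_self_sqrt (hw n (Finset.mem_filter.1 hn).1)
    have f1 : ∑ n ∈ Ω.filter (fun n => ∃ i, P g i n), Real.sqrt (w n) * (Real.sqrt (w n) * N g n) =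
        ∑ n ∈ Ω.filter (fun n => ∃ i, P g i n), w n * N g n := by
      refine Finset.sum_congr rfl fun n hn => ?_
      rw [← mul_assoc, hs1 n hn]
    have f2 : ∑ n ∈ Ω.filter (fun n => ∃ i, P g i n), Real.sqrt (w n) ^ 2 = M g := by
      refine Finset.sum_congr rfl fun n hn => ?_
      rw [sq, hs1 n hn]
    have f3 : ∑ n ∈ Ω.filter (fun n => ∃ i, P g i n), (Real.sqrt (w n) * N g n) ^ 2 =
        ∑ n ∈ Ω.filter (fun n => ∃ i, P g i n), w n * N g n ^ 2 := by
      refine Finset.sum_congr rfl fun n hn => ?_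
      rw [mul_pow, sq (Real.sqrt (w n)), hs1 n hn]
    rw [f1, f2, f3] at this
    exact this
  have hs1 : s ≤ 1 / 100 := by nlinarith
  -- mass of each class
  have hMg : ∀ g, (1 / 4 - 1 / (100 * T)) * A ≤ M g := by
    intro g
    have a1 := hfirst g
    have a2 := hsecond g
    have a3 := hCS g
    have a4 : ((1 - s) * μ * A) ^ 2 ≤ (∑ n ∈ Ω, w n * N g n) ^ 2 := by
      apply pow_le_pow_left₀ _ a1
      have : 0 ≤ 1 - s := by linarith
      positivity
    have a5 : ((1 - s) * μ * A) ^ 2 ≤ M g * (((1 + s) * μ + (4 + s) * μ ^ 2) * A) :=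
      a4.trans (a3.trans (mul_le_mul_of_nonneg_left a2 (hMnn g)))
    have a6 : (1 - s) ^ 2 * μ * A ≤ M g * ((1 + s) + (4 + s) * μ) := by
      have hpos : 0 < μ * A := by positivity
      refine le_of_mul_le_mul_right ?_ hpos
      nlinarith [a5]
    by_contra hcon
    push Not at hcon
    have hD : 0 < (1 + s) + (4 + s) * μ := by positivity
    have a7 : M g * ((1 + s) + (4 + s) * μ) <
        (1 / 4 - 1 / (100 * T)) * A * ((1 + s) + (4 + s) * μ) :=
      mul_lt_mul_of_pos_right hcon hD
    have a8 : (1 - s) ^ 2 * μ * A < (1 / 4 - 1 / (100 * T)) * A * ((1 + s) + (4 + s) * μ) :=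
      lt_of_le_of_lt a6 a7
    have a9 : (1 - s) ^ 2 * μ < (1 / 4 - 1 / (100 * T)) * ((1 + s) + (4 + s) * μ) := by
      refine lt_of_mul_lt_mul_right (a := A) ?_ hA.le
      nlinarith [a8]
    -- put t = 1/T
    set t : ℝ := 1 / T with ht
    have ht0 : 0 < t := by positivity
    have ht1 : t ≤ 1 := by
      rw [ht, div_le_one hT0]; exact hT1
    have htT : t * T = 1 := by rw [ht]; field_simp
    have hst : s ≤ t / 100 := by
      rw [ht]
      rw [div_div, le_div_iff₀ (by positivity)]
      nlinarith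
    have hμt : 16 ≤ μ * t := by
      have := mul_le_mul_of_nonneg_right hμ ht0.le
      nlinarith
    have e100 : (1 : ℝ) / (100 * T) = t / 100 := by rw [ht]; field_simp
    rw [e100] at a9
    exact absurd (numeric hs hst ht0 ht1 hμ0 hμt) (not_le.2 a9)
  -- number of classes
  set Y : ℕ → ℕ := fun n => ((univ : Finset (Fin T)).filter (fun g => ∃ i, P g i n)).card with hY
  have hYsum : ∑ n ∈ Ω, w n * (Y n : ℝ) = ∑ g, M g := by
    have e1 : ∀ n, w n * (Y n : ℝ) = ∑ g : Fin T, (if ∃ i, P g i n then w n else 0) := by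
      intro n
      rw [← Finset.sum_filter, Finset.sum_const, nsmul_eq_mul, mul_comm]
    simp_rw [e1]
    rw [Finset.sum_comm]
    refine Finset.sum_congr rfl fun g _ => ?_
    exact (Finset.sum_filter _ _).symm
  have hlow : (T / 4 - 1 / 100) * A ≤ ∑ n ∈ Ω, w n * (Y n : ℝ) := by
    rw [hYsum]
    calc (T / 4 - 1 / 100) * A = ∑ g : Fin T, (1 / 4 - 1 / (100 * T)) * A := by
          simp only [Finset.sum_const, Finset.card_univ, Fintype.card_fin, nsmul_eq_mul]
          field_simp
      _ ≤ _ := Finset.sum_le_sum fun g _ => hMg g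
  have hYle : ∀ n, (Y n : ℝ) ≤ T := by
    intro n
    have : Y n ≤ T := by
      refine (Finset.card_filter_le _ _).trans ?_
      simp
    exact_mod_cast this
  have hsplit : ∑ n ∈ Ω, w n * (Y n : ℝ) ≤
      T * ∑ n ∈ Ω.filter (fun n => T ≤ 4 * Y n), w n + (T - 1) / 4 * ∑ n ∈ Ω, w n := by
    rw [← Finset.sum_filter_add_sum_filter_not Ω (fun n => T ≤ 4 * Y n)]
    apply add_le_add
    · rw [Finset.mul_sum]
      refine Finset.sum_le_sum fun n hn => ?_
      rw [mul_comm]
      exact mul_le_mul_of_nonneg_right (hYle n) (hw n (Finset.mem_filter.1 hn).1)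
    · rw [Finset.mul_sum]
      refine le_trans (Finset.sum_le_sum (f := fun n => w n * (Y n : ℝ))
        (g := fun n => (T - 1) / 4 * w n) fun n hn => ?_)
        (Finset.sum_le_sum_of_subset_of_nonneg (Finset.filter_subset _ _) ?_)
      · have h4 : 4 * Y n < T := not_le.1 (Finset.mem_filter.1 hn).2
        have h4' : 4 * Y n + 1 ≤ T := h4
        have h5 : 4 * (Y n : ℝ) + 1 ≤ T := by exact_mod_cast h4'
        have h6 : (Y n : ℝ) ≤ (T - 1) / 4 := by linarith
        show w n * (Y n : ℝ) ≤ (T - 1) / 4 * w n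
        rw [mul_comm]
        exact mul_le_mul_of_nonneg_right h6 (hw n (Finset.mem_filter.1 hn).1)
      · intro n hn _
        have : (0 : ℝ) ≤ (T - 1) / 4 := by linarith
        exact mul_nonneg this (hw n hn)
  have hT14 : (0 : ℝ) ≤ (T - 1) / 4 := by linarith
  have h7 : (T - 1) / 4 * ∑ n ∈ Ω, w n ≤ (T - 1) / 4 * ((1 + s) * A) :=
    mul_le_mul_of_nonneg_left htot hT14
  have h8 : (T / 4 - 1 / 100) * A - (T - 1) / 4 * ((1 + s) * A) ≤
      T * ∑ n ∈ Ω.filter (fun n => T ≤ 4 * Y n), w n := by linarith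
  have h9 : A / 8 ≤ (T / 4 - 1 / 100) * A - (T - 1) / 4 * ((1 + s) * A) := by
    have : (T : ℝ) * s ≤ 1 / 100 := by linarith
    nlinarith
  rw [div_le_iff₀ (by positivity)]
  have h10 := h9.trans h8
  linarith

end Pool.Agent.W168.HR
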